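import Mathlib

/-!
Germs of threefolds, minimal log discrepancies, Q1 for a germ, and the class `Good` (definitions).

A germ `(X, x)` of a variety of dimension `n` is given by its function field `K`, the coordinate ring
`R ⊆ K`, the ideal `m` of the point `x`, and a generator `g (dy_1 ∧ … ∧ dy_n)^N` of `N K_X`.
-/

set_option autoImplicit false

open MvPolynomial

namespace Pool.Agent.Helper73.TG

universe u

section general

variable {k K : Type u} [Field k] [Field K] [Algebra k K] {n : ℕ}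

/-- `ord` is the order function of a prime divisor over a variety of dimension `n` with function
field `K`: a surjective valuation of `K`, trivial on `k`, whose residue field has transcendence
degree `n - 1` over `k` (there are `n - 1` functions with algebraically independent residues). The
value at `0` is irrelevant. -/
structure IsDivisor (k : Type u) {K : Type u} [Field k] [Field K] [Algebra k K] (n : ℕ)
    (ord : K → ℤ) : Prop where
  mul : ∀ f g : K, f ≠ 0 → g ≠ 0 → ord (f * g) = ord f + ord g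
  add : ∀ f g : K, f ≠ 0 → g ≠ 0 → f + g ≠ 0 → min (ord f) (ord g) ≤ ord (f + g)
  const : ∀ c : k, c ≠ 0 → ord (algebraMap k K c) = 0
  surj : ∃ f : K, f ≠ 0 ∧ ord f = 1
  residue : ∃ g : Fin (n - 1) → K, ∀ P : MvPolynomial (Fin (n - 1)) k, P ≠ 0 →
    aeval g P ≠ 0 ∧ ord (aeval g P) = 0

/-- The centre of the divisor on `Spec R` is the point of the maximal ideal `m`. -/
def Centre (R : Subalgebra k K) (m : Ideal R) (ord : K → ℤ) : Prop :=
  (∀ f : R, f ≠ 0 → 0 ≤ ord (f : K)) ∧ ∀ f ∈ m, f ≠ 0 → 0 < ord (f : K)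

/-- The derivation `D` of the function field maps the valuation ring to itself. -/
def IntegralDer (ord : K → ℤ) (D : Derivation k K K) : Prop :=
  ∀ f : K, f ≠ 0 → 0 ≤ ord f → D f = 0 ∨ 0 ≤ ord (D f)

/-- The Jacobian determinant of the functions `y_j` with respect to derivations `D_i`. -/
noncomputable def jac (D : Fin n → Derivation k K K) (y : Fin n → K) : K :=
  Matrix.det (Matrix.of fun i j : Fin n => D i (y j))

/-- The log discrepancy `A_X(E) = 1 + (1/N) ord_E(ω)`, `ω = g (dy_1 ∧ … ∧ dy_n)^N`: the order of `ω`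
along `E` is the minimum over the derivations `D_i` of the valuation ring of `E` of the orders of
`ω(D_1, …, D_n) = g det(D_i y_j)^N`. -/
noncomputable def logDisc (k : Type u) {K : Type u} [Field k] [Field K] [Algebra k K] {n : ℕ}
    (N : ℕ) (y : Fin n → K) (g : K) (ord : K → ℤ) : EReal :=
  ⨅ D : {D : Fin n → Derivation k K K // (∀ i, IntegralDer ord (D i)) ∧ jac D y ≠ 0},
    (((1 + ord (jac D.1 y) + ord g / N : ℝ)) : EReal)

/-- The order of an ideal of the coordinate ring along `E`. -/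
noncomputable def ordI (R : Subalgebra k K) (ord : K → ℤ) (I : Ideal R) : ℕ :=
  sInf {m : ℕ | ∃ f ∈ I, f ≠ 0 ∧ ord (f : K) = m}

/-- The minimal log discrepancy at `x` of `(X, ∏ a_j^(lam j))`: the infimum of
`A_X(E) - ∑ lam_j ord_E(a_j)` over the divisors `E` with centre `x`. -/
noncomputable def mld (R : Subalgebra k K) (m : Ideal R) (N : ℕ) (y : Fin n → K) (g : K) {r : ℕ}
    (lam : Fin r → ℝ) (a : Fin r → Ideal R) : EReal :=
  ⨅ E : {ord : K → ℤ // IsDivisor k n ord ∧ Centre R m ord},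
    logDisc k N y g E.1 - ((∑ j, lam j * (ordI R E.1 (a j) : ℝ) : ℝ) : EReal)

/-- Q1 (uniform ideal-adic semicontinuity) for the germ. -/
def Q1 (R : Subalgebra k K) (m : Ideal R) (N : ℕ) (y : Fin n → K) (g : K) : Prop :=
  ∀ I : Set ℝ, I.Finite → (∀ t ∈ I, 0 ≤ t) →
    ∃ s : ℕ, 1 ≤ s ∧ ∀ (r : ℕ) (lam : Fin r → ℝ) (a b : Fin r → Ideal R), (∀ j, lam j ∈ I) →
      (∀ j, a j ≠ ⊥) → (∀ j, b j ≠ ⊥) → (∀ j, a j ⊔ m ^ s = b j ⊔ m ^ s) →
      (0 ≤ mld R m N y g lam a ↔ 0 ≤ mld R m N y g lam b) ∧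
        (0 ≤ mld R m N y g lam a → 0 ≤ mld R m N y g lam b →
          mld R m N y g lam a = mld R m N y g lam b)

end general

/-- The pairing of characters and one-parameter subgroups. -/
def pr (m v : Fin 3 → ℤ) : ℤ := ∑ j, m j * v j

/-- The cone spanned by `ρ_1, …, ρ_q ∈ ℤ^3` is strongly convex and full-dimensional, and
`⟨θ, ρ_i⟩ = N > 0` for all `i`: if the `ρ_i` are primitive and span the rays, the toric variety is
`ℚ`-Gorenstein and `θ` gives a generator of `N K` (in general the log discrepancies are those of a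
toric pair with standard coefficients). -/
def ToricOK {q : ℕ} (ρ : Fin q → Fin 3 → ℤ) (N : ℕ) (θ : Fin 3 → ℤ) : Prop :=
  0 < N ∧ (∃ u, ∀ i, 0 < pr u (ρ i)) ∧ (∀ m : Fin 3 → ℤ, (∀ i, pr m (ρ i) = 0) → m = 0) ∧
    ∀ i, pr θ (ρ i) = N

section threefolds

variable {k : Type u} [Field k]

/-- The coordinate function `x_j` of the affine space. -/
noncomputable def coord (k : Type u) [Field k] (j : Fin 3) :
    FractionRing (MvPolynomial (Fin 3) k) :=
  algebraMap (MvPolynomial (Fin 3) k) (FractionRing (MvPolynomial (Fin 3) k)) (X j)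

/-- The character `χ^u = ∏ x_j^(u_j)` of the torus. -/
noncomputable def chi (k : Type u) [Field k] (u : Fin 3 → ℤ) :
    FractionRing (MvPolynomial (Fin 3) k) := ∏ j, coord k j ^ u j

/-- `R` is the coordinate ring of the affine toric variety of the cone spanned by the `ρ_i`, and `m`
the ideal of the torus fixed point. -/
def IsToric (R : Subalgebra k (FractionRing (MvPolynomial (Fin 3) k))) (m : Ideal R) {q : ℕ}
    (ρ : Fin q → Fin 3 → ℤ) : Prop :=
  R = Algebra.adjoin k (chi k '' {u | ∀ i, 0 ≤ pr u (ρ i)}) ∧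
    m = Ideal.span {f : R | ∃ u : Fin 3 → ℤ, (∀ i, 0 ≤ pr u (ρ i)) ∧ u ≠ 0 ∧
      (f : FractionRing (MvPolynomial (Fin 3) k)) = chi k u}

/-- The automorphism acts linearly on the coordinates. -/
def IsLin (γ : FractionRing (MvPolynomial (Fin 3) k) ≃ₐ[k] FractionRing (MvPolynomial (Fin 3) k)) :
    Prop :=
  ∃ A : Matrix (Fin 3) (Fin 3) k, ∀ j, γ (coord k j) = ∑ i, algebraMap k _ (A j i) * coord k i

/-- The germ is the image of the origin in `𝔸^3 / G`, where `G` is a finite group of linear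
automorphisms: `j` identifies `K` with the field of invariants, `R` with the ring of the invariant
polynomials, `m` with the ideal of those without constant term, and the form
`g (dy_1 ∧ dy_2 ∧ dy_3)^N` with a nonzero constant times `(dx_1 ∧ dx_2 ∧ dx_3)^N`. -/
def IsQuotient {K : Type u} [Field K] [Algebra k K] (R : Subalgebra k K) (m : Ideal R)
    (N : ℕ) (y : Fin 3 → K) (g : K) : Prop :=
  ∃ (j : K →ₐ[k] FractionRing (MvPolynomial (Fin 3) k))
    (G : Subgroup (FractionRing (MvPolynomial (Fin 3) k) ≃ₐ[k]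
      FractionRing (MvPolynomial (Fin 3) k))),
    Finite G ∧ (∀ γ ∈ G, IsLin γ) ∧ (∀ f, f ∈ j.range ↔ ∀ γ ∈ G, γ f = f) ∧
    (∀ a : K, a ∈ R ↔ ∃ p : MvPolynomial (Fin 3) k,
      algebraMap _ (FractionRing (MvPolynomial (Fin 3) k)) p = j a) ∧
    (∀ a : R, a ∈ m ↔ ∃ p : MvPolynomial (Fin 3) k, constantCoeff p = 0 ∧
      algebraMap _ (FractionRing (MvPolynomial (Fin 3) k)) p = j (a : K)) ∧
    0 < N ∧ ∃ c : k, c ≠ 0 ∧ ∀ D : Fin 3 → Derivation k (FractionRing (MvPolynomial (Fin 3) k))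
        (FractionRing (MvPolynomial (Fin 3) k)),
      j g * jac D (fun i => j (y i)) ^ N = algebraMap k _ c * jac D (fun i => coord k i) ^ N

variable {K₀ K : Type u} [Field K₀] [Algebra k K₀] [Field K] [Algebra k K]

/-- `Spec R` is a threefold with function field `K`, regular at the point of `m`, with residue field
`R / m = k` and local parameters `y_1, y_2, y_3` (the `y_i` generate `m` modulo `m ^ 2`, and the
graded ring of `m` is the polynomial ring in their classes); the form is `dy_1 ∧ dy_2 ∧ dy_3`. -/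
def IsRegular (R : Subalgebra k K) (m : Ideal R) (N : ℕ) (y : Fin 3 → K) (g : K) : Prop :=
  (∀ t : Fin 4 → K, ¬ AlgebraicIndependent k t) ∧
  (∀ x : K, ∃ a b : R, b ≠ 0 ∧ x = (a : K) / (b : K)) ∧
  (∀ f : R, ∃ c : k, f - algebraMap k R c ∈ m) ∧
  (∃ z : Fin 3 → R, (∀ i, y i = z i ∧ z i ∈ m) ∧ m ≤ Ideal.span (Set.range z) ⊔ m ^ 2 ∧
    ∀ (s : ℕ) (P : MvPolynomial (Fin 3) k), P.IsHomogeneous s →
      aeval z P ∈ m ^ (s + 1) → P = 0) ∧
  N = 1 ∧ g = 1

/-- The germ `(R, m, N, y, g)` is etale over the germ `(R₀, m₀, N₀, y₀, g₀)`, with trivial extension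
of the residue field: there is an embedding `j` of the function fields which is algebraic, its
restriction `φ : R₀ → R` induces bijections `R₀ / m₀ ^ s → R / m ^ s` for all `s`, and the forms
correspond. -/
def IsEtale (R₀ : Subalgebra k K₀) (m₀ : Ideal R₀) (N₀ : ℕ) (y₀ : Fin 3 → K₀) (g₀ : K₀)
    (R : Subalgebra k K) (m : Ideal R) (N : ℕ) (y : Fin 3 → K) (g : K) : Prop :=
  ∃ (j : K₀ →ₐ[k] K) (φ : R₀ →ₐ[k] R), (∀ a, (φ a : K) = j a) ∧
    (∀ t : Fin 4 → K, ¬ AlgebraicIndependent k t) ∧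
    (∀ x : K, ∃ P : Polynomial K₀, P ≠ 0 ∧ P.eval₂ (j : K₀ →+* K) x = 0) ∧
    (∀ x : K, ∃ a b : R, b ≠ 0 ∧ x = (a : K) / (b : K)) ∧
    (∀ x : K₀, ∃ a b : R₀, b ≠ 0 ∧ x = (a : K₀) / (b : K₀)) ∧
    (∀ a ∈ m₀, φ a ∈ m) ∧ m₀ ≠ ⊥ ∧
    (∀ (s : ℕ) (f : R), ∃ a : R₀, f - φ a ∈ m ^ s) ∧
    (∀ (s : ℕ) (a : R₀), φ a ∈ m ^ s → a ∈ m₀ ^ s) ∧
    N = N₀ ∧ 0 < N₀ ∧ (∀ i, y i = j (y₀ i)) ∧ g = j g₀ ∧ g₀ ≠ 0

end threefolds

/-- The smallest class of threefold germs which contains
* the affine toric germs (`toric`);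
* the quotient germs: the image of the origin in `𝔸^3 / G`, where `G` is a finite group of linear
  automorphisms, and the regular germs with residue field `k` (`base`);
* with a germ also the germs which are etale over it at the point with trivial extension of the
  residue field, and the germs over which it is etale (`link`). -/
inductive Good (k : Type u) [Field k] : ∀ (K : Type u) [Field K] [Algebra k K]
    (R : Subalgebra k K), Ideal R → ℕ → (Fin 3 → K) → K → Prop
  | toric (q : ℕ) (ρ : Fin q → Fin 3 → ℤ) (N : ℕ) (θ : Fin 3 → ℤ)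
      (R : Subalgebra k (FractionRing (MvPolynomial (Fin 3) k))) (m : Ideal R)
      (h : ToricOK ρ N θ) (h' : IsToric R m ρ) :
      Good k (FractionRing (MvPolynomial (Fin 3) k)) R m N (coord k) (chi k fun j => θ j - N)
  | base (K : Type u) [Field K] [Algebra k K] (R : Subalgebra k K) (m : Ideal R) (N : ℕ)
      (y : Fin 3 → K) (g : K) (h : IsQuotient R m N y g ∨ IsRegular R m N y g) :
      Good k K R m N y g
  | link (K₀ K : Type u) [Field K₀] [Algebra k K₀] [Field K] [Algebra k K]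
      (R₀ : Subalgebra k K₀) (m₀ : Ideal R₀) (N₀ : ℕ) (y₀ : Fin 3 → K₀) (g₀ : K₀)
      (R : Subalgebra k K) (m : Ideal R) (N : ℕ) (y : Fin 3 → K) (g : K)
      (h₀ : Good k K₀ R₀ m₀ N₀ y₀ g₀)
      (h : IsEtale R₀ m₀ N₀ y₀ g₀ R m N y g ∨ IsEtale R m N y g R₀ m₀ N₀ y₀ g₀) :
      Good k K R m N y g

end Pool.Agent.Helper73.TG
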