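import Pool.Agent.Helper73.TG.Defs
import Pool.Agent.M5.Good

/-!
Bridge from the class `Good` of `TG.Defs` to the class `M5.Good`.
-/

set_option autoImplicit false

open MvPolynomial

namespace Pool.Agent.Helper73.TG

universe u

section general

variable {k K : Type u} [Field k] [Field K] [Algebra k K] {n : ℕ}

/-- the germ -/
def gm (R : Subalgebra k K) (m : Ideal R) (N : ℕ) (y : Fin n → K) (g : K) : M5.Germ k K n :=
  ⟨R, m, N, y, g⟩

/-- the divisors -/
def toDv {ord : K → ℤ} (h : IsDivisor k n ord) : M5.Dv k K n where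
  ord := ord
  ord_mul' := h.mul
  ord_add' := h.add
  ord_const' := h.const
  ord_surj' := h.surj
  residue' := h.residue

theorem ofDv (E : M5.Dv k K n) : IsDivisor k n E.ord :=
  ⟨E.ord_mul', E.ord_add', E.ord_const', E.ord_surj', E.residue'⟩

theorem mld_eq (R : Subalgebra k K) (m : Ideal R) (N : ℕ) (y : Fin n → K) (g : K) {r : ℕ}
    (lam : Fin r → ℝ) (a : Fin r → Ideal R) :
    mld R m N y g lam a = (gm R m N y g).mld lam a := by
  apply le_antisymm
  · refine le_iInf fun E => ?_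
    exact iInf_le_of_le (⟨E.1.ord, ofDv E.1, E.2⟩ :
      {ord : K → ℤ // IsDivisor k n ord ∧ Centre R m ord}) le_rfl
  · refine le_iInf fun E => ?_
    exact iInf_le_of_le (⟨toDv E.2.1, E.2.2⟩ :
      {E : M5.Dv k K n // (gm R m N y g).Centre E}) le_rfl

theorem q1_of (R : Subalgebra k K) (m : Ideal R) (N : ℕ) (y : Fin n → K) (g : K)
    (h : (gm R m N y g).Q1) : Q1 R m N y g := by
  intro I hI hI0
  obtain ⟨s, hs, hs'⟩ := h I hI hI0
  refine ⟨s, hs, fun r lam a b hl ha hb hab => ?_⟩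
  have h' := hs' r lam a b hl ha hb hab
  rw [mld_eq, mld_eq]
  exact h'

end general

section threefolds

variable {k : Type u} [Field k]

theorem etOver {K₀ K : Type u} [Field K₀] [Algebra k K₀] [Field K] [Algebra k K]
    (R₀ : Subalgebra k K₀) (m₀ : Ideal R₀) (N₀ : ℕ) (y₀ : Fin 3 → K₀) (g₀ : K₀)
    (R : Subalgebra k K) (m : Ideal R) (N : ℕ) (y : Fin 3 → K) (g : K)
    (h : IsEtale R₀ m₀ N₀ y₀ g₀ R m N y g) :
    M5.TrLe k K 3 ∧ ∃ j : K₀ →ₐ[k] K, M5.EtOver j (gm R₀ m₀ N₀ y₀ g₀) (gm R m N y g) := by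
  obtain ⟨j, φ, hφ, hd, halg, hfr, hfr0, hpt, hne, happ, hinj, hN, hN0, hy, hg, hg0⟩ := h
  have hm : ∀ a : R₀, j (a : K₀) ∈ R := fun a => by
    rw [← hφ a]
    exact (φ a).2
  have he : ∀ a : R₀, (⟨j (a : K₀), hm a⟩ : R) = φ a := fun a => Subtype.ext (hφ a).symm
  exact ⟨hd, j,
    { alg := halg
      map := hm
      mapm := fun a ha => by
        have := hpt a ha
        rw [← he a] at this
        exact this
      approx := fun s f => by
        obtain ⟨a, ha⟩ := happ s f
        refine ⟨a, ?_⟩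
        rw [← he a] at ha
        exact ha
      inj := fun s a ha => hinj s a (by
        rw [← he a]
        exact ha)
      frac := hfr
      frac₀ := hfr0
      hN := hN
      hN0 := hN0
      hy := hy
      hg := hg
      hg0 := hg0
      hm0 := hne }⟩

theorem good_of (K : Type u) [Field K] [Algebra k K] (R : Subalgebra k K) (m : Ideal R) (N : ℕ)
    (y : Fin 3 → K) (g : K) (h : Good k K R m N y g) : M5.Good k K (gm R m N y g) := by
  induction h with
  | toric q ρ N θ R m h h' =>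
    obtain ⟨rfl, rfl⟩ := h'
    exact M5.Good.toric q ρ N θ h
  | base K R m N y g h =>
    rcases h with ⟨j, G, h1, h2, h3, h4, h5, h6, h7⟩ | ⟨h1, h2, h3, ⟨z, h4, h5, h6⟩, rfl, rfl⟩
    · exact M5.Good.quot K (gm R m N y g) j G ⟨h1, h2, h3⟩ ⟨h4, h5⟩ ⟨h6, h7⟩
    · obtain rfl : y = fun i => (z i : K) := funext fun i => (h4 i).1
      exact M5.Good.reg K h1 R m z ⟨h2, h3, fun i => (h4 i).2, h5, h6⟩
  | link K₀ K R₀ m₀ N₀ y₀ g₀ R m N y g h₀ h ih =>
    rcases h with h | h
    · obtain ⟨hd, j, hj⟩ := etOver R₀ m₀ N₀ y₀ g₀ R m N y g h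
      exact M5.Good.up K₀ K hd j _ _ ih hj
    · obtain ⟨hd, j, hj⟩ := etOver R m N y g R₀ m₀ N₀ y₀ g₀ h
      exact M5.Good.down K K₀ hd j _ _ ih hj

/-- Q1 for the germs of the class `Good`. -/
theorem main [IsAlgClosed k] [CharZero k] (K : Type u) [Field K] [Algebra k K]
    (R : Subalgebra k K) (m : Ideal R) (N : ℕ) (y : Fin 3 → K) (g : K)
    (h : Good k K R m N y g) : Q1 R m N y g :=
  q1_of R m N y g (M5.good_Q1 (good_of K R m N y g h))

end threefolds

end Pool.Agent.Helper73.TG
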